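import Pool.Agent.Helper42.QC.Defs

namespace Pool.Agent.Helper42.QC

open Pool.Agent.Helper42.QD

/-- Elements of `1 + pi ^ m A` are units of `A`. -/
theorem chr_inv {K D : Type} [Field K] [DivisionRing D] (c : CD K D) (m : ℕ) (hm : 0 < m)
    (u : Kˣ) (x : K) (hx : x ∈ c.A) (hu : (u : K) = 1 + c.pi ^ m * x) : ((u⁻¹ : Kˣ) : K) ∈ c.A := by
  obtain ⟨k, rfl⟩ := Nat.exists_eq_succ_of_ne_zero hm.ne'
  have hpi : c.pi ≠ 0 := c.pine
  have hpk : c.pi ^ k * x ∈ c.A := c.A.mul_mem (c.A.pow_mem c.piA k) hx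
  obtain ⟨n, w, hw, hw', hwn⟩ := c.unif (u : K) u.ne_zero
  have hw0 : w ≠ 0 := by
    rintro rfl
    rw [zero_mul] at hwn
    exact u.ne_zero hwn
  have e1 : c.pi⁻¹ = (u : K) / c.pi - c.pi ^ k * x := by
    rw [hu, pow_succ]
    field_simp
    ring
  rcases lt_trichotomy n 0 with hn | hn | hn
  · exfalso
    apply c.pinv
    have e2 : c.pi⁻¹ = w⁻¹ * ((u : K) * c.pi ^ ((-n - 1).toNat)) := by
      have e3 : ((-n - 1).toNat : ℤ) = -n - 1 := Int.toNat_of_nonneg (by omega)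
      rw [← zpow_natCast, e3, hwn, mul_assoc, ← zpow_add₀ hpi, ← mul_assoc, inv_mul_cancel₀ hw0, one_mul]
      have e4 : n + (-n - 1) = -1 := by ring
      rw [e4, zpow_neg_one]
    rw [e2]
    refine c.A.mul_mem hw' (c.A.mul_mem ?_ (c.A.pow_mem c.piA _))
    rw [hu]
    exact c.A.add_mem c.A.one_mem (c.A.mul_mem (c.A.pow_mem c.piA _) hx)
  · subst hn
    have e2 : ((u⁻¹ : Kˣ) : K) = w⁻¹ := by
      rw [Units.val_inv_eq_inv_val, hwn, zpow_zero, mul_one]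
    rw [e2]
    exact hw'
  · exfalso
    apply c.pinv
    rw [e1]
    refine c.A.sub_mem ?_ hpk
    have e3 : ((n - 1).toNat : ℤ) = n - 1 := Int.toNat_of_nonneg (by omega)
    have e2 : (u : K) / c.pi = w * c.pi ^ ((n - 1).toNat) := by
      rw [← zpow_natCast, e3, hwn, div_eq_mul_inv, mul_assoc, ← zpow_neg_one, ← zpow_add₀ hpi]
      rfl
    rw [e2]
    exact c.A.mul_mem hw (c.A.pow_mem c.piA _)

theorem st_CHR (hEXT : ST_EXT) : ST_CHR := by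
  intro K D _ _ c m xi hm hadd htriv
  have hpi : c.pi ≠ 0 := c.pine
  have hpm : c.pi ^ m ≠ 0 := pow_ne_zero m hpi
  have h0 : xi 0 = 1 := htriv 0 c.A.zero_mem (by rw [zero_div]; exact c.A.zero_mem)
  have hcan : ∀ (u : Kˣ) (x : K), (u : K) = 1 + c.pi ^ m * x → ((u : K) - 1) / c.pi ^ m = x := by
    intro u x hu
    rw [hu, add_sub_cancel_left, mul_div_cancel_left₀ _ hpm]
  -- the product formula
  have hpr : ∀ x ∈ c.A, ∀ y ∈ c.A, x + y + c.pi ^ m * (x * y) ∈ c.A ∧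
      xi (x + y + c.pi ^ m * (x * y)) = xi x * xi y := by
    intro x hx y hy
    have h1 : c.pi ^ m * (x * y) ∈ c.A := c.A.mul_mem (c.A.pow_mem c.piA m) (c.A.mul_mem hx hy)
    refine ⟨c.A.add_mem (c.A.add_mem hx hy) h1, ?_⟩
    rw [hadd _ (c.A.add_mem hx hy) _ h1, hadd x hx y hy, htriv _ h1, mul_one]
    obtain ⟨k, rfl⟩ := Nat.exists_eq_succ_of_ne_zero hm.ne'
    have e : c.pi ^ (k + 1) * (x * y) / c.pi = c.pi ^ k * (x * y) := by
      rw [pow_succ]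
      field_simp
    rw [e]
    exact c.A.mul_mem (c.A.pow_mem c.piA k) (c.A.mul_mem hx hy)
  let H : Subgroup Kˣ :=
    { carrier := {u | ∃ x ∈ c.A, (u : K) = 1 + c.pi ^ m * x}
      one_mem' := ⟨0, c.A.zero_mem, by simp⟩
      mul_mem' := by
        rintro u v ⟨x, hx, hu⟩ ⟨y, hy, hv⟩
        refine ⟨x + y + c.pi ^ m * (x * y), (hpr x hx y hy).1, ?_⟩
        rw [Units.val_mul, hu, hv]
        ring
      inv_mem' := by
        rintro u ⟨x, hx, hu⟩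
        refine ⟨-(x * ((u⁻¹ : Kˣ) : K)), c.A.neg_mem (c.A.mul_mem hx (chr_inv c m hm u x hx hu)), ?_⟩
        have h1 : (u : K) * ((u⁻¹ : Kˣ) : K) = 1 := Units.mul_inv u
        have h2 : ((u⁻¹ : Kˣ) : K) = 1 * ((u⁻¹ : Kˣ) : K) := (one_mul _).symm
        calc ((u⁻¹ : Kˣ) : K) = (1 + c.pi ^ m * x) * ((u⁻¹ : Kˣ) : K)
              - c.pi ^ m * x * ((u⁻¹ : Kˣ) : K) := by ring
          _ = 1 - c.pi ^ m * x * ((u⁻¹ : Kˣ) : K) := by rw [← hu, h1]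
          _ = 1 + c.pi ^ m * -(x * ((u⁻¹ : Kˣ) : K)) := by ring }
  have hHdef : ∀ u : Kˣ, u ∈ H ↔ ∃ x ∈ c.A, (u : K) = 1 + c.pi ^ m * x := fun u => Iff.rfl
  have hne : ∀ x ∈ c.A, xi x ≠ 0 := by
    intro x hx h
    have h1 := hadd x hx (-x) (c.A.neg_mem hx)
    rw [add_neg_cancel, h0, h, zero_mul] at h1
    exact one_ne_zero h1
  have hmem : ∀ u : H, ((u : Kˣ) : K) - 1 = c.pi ^ m * ((((u : Kˣ) : K) - 1) / c.pi ^ m) ∧
      (((u : Kˣ) : K) - 1) / c.pi ^ m ∈ c.A := by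
    rintro ⟨u, hu⟩
    obtain ⟨x, hx, hux⟩ := (hHdef u).1 hu
    have h1 := hcan u x hux
    constructor
    · show (u : K) - 1 = c.pi ^ m * (((u : K) - 1) / c.pi ^ m)
      rw [h1, hux]
      ring
    · show ((u : K) - 1) / c.pi ^ m ∈ c.A
      rw [h1]
      exact hx
  let f : H →* ℂˣ := MonoidHom.mk' (fun u => Units.mk0 (xi ((((u : Kˣ) : K) - 1) / c.pi ^ m))
    (hne _ (hmem u).2)) (by
      intro u v
      apply Units.ext
      show xi ((((u * v : H) : Kˣ) - 1 : K) / c.pi ^ m) =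
        xi ((((u : Kˣ) : K) - 1) / c.pi ^ m) * xi ((((v : Kˣ) : K) - 1) / c.pi ^ m)
      have hu := hmem u
      have hv := hmem v
      set x := (((u : Kˣ) : K) - 1) / c.pi ^ m with hxdef
      set y := (((v : Kˣ) : K) - 1) / c.pi ^ m with hydef
      rw [← (hpr x hu.2 y hv.2).2]
      congr 1
      rw [div_eq_iff hpm]
      have e1 : ((u : Kˣ) : K) = 1 + c.pi ^ m * x := by rw [← hu.1]; ring
      have e2 : ((v : Kˣ) : K) = 1 + c.pi ^ m * y := by rw [← hv.1]; ring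
      rw [Subgroup.coe_mul, Units.val_mul, e1, e2]
      ring)
  obtain ⟨F, hF⟩ := hEXT Kˣ H f
  refine ⟨F, ?_⟩
  intro u x hx hu
  have hmemu : u ∈ H := (hHdef u).2 ⟨x, hx, hu⟩
  rw [hF ⟨u, hmemu⟩]
  show xi (((u : K) - 1) / c.pi ^ m) = xi x
  rw [hcan u x hu]

end Pool.Agent.Helper42.QC
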